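import Mathlib

/-!
# MP_be01c1_co : minimum-eigenvalue hyperplane sections of Gilbert graphs

For a prime `q` the Gilbert graph on `F_q^n` joins two vectors at Hamming distance between `1`
and `d - 1`.  Starting from `V_0 = F_q^n` one repeatedly passes to the hyperplane section
orthogonal to the first vector giving the least eigenvalue.  The question asks whether, at each
stage, any two vectors giving the least eigenvalue give isomorphic hyperplane sections.

The answer is no, already at the first stage `t = 0`: for `q = 3`, `n = 5`, `d = 3` the least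
eigenvalue is `-4`, it is attained by `v = (1,1,1,0,0)` and by `v' = (1,1,1,1,0)`, and the section
orthogonal to `v` contains a clique with `9` vertices while in the section orthogonal to `v'`
every two adjacent vertices have at most five common neighbours.
-/

set_option autoImplicit false

namespace Pool.Agent.Results.MP_be01c1_co.SectionsNotIsomorphic

open Finset

/-- Vectors of length `n` over `F_q = ZMod q`. -/
abbrev Vec (q n : ℕ) : Type := Fin n → ZMod q

/-- Hamming weight. -/
def wt {q n : ℕ} (u : Vec q n) : ℕ := (univ.filter (fun i => u i ≠ 0)).card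

/-- The form `⟨u, v⟩ = ∑ u_i v_i`. -/
def dot {q n : ℕ} (u v : Vec q n) : ZMod q := ∑ i, u i * v i

/-- The Gilbert graph `G_0`: `u ∼ u'` iff `1 ≤ w(u - u') ≤ d - 1`. -/
def gilbert (q n d : ℕ) : SimpleGraph (Vec q n) where
  Adj u u' := 1 ≤ wt (u - u') ∧ wt (u - u') ≤ d - 1
  symm := ⟨by
    intro u u' h
    have : wt (u' - u) = wt (u - u') := by
      unfold wt
      congr 1
      apply Finset.filter_congr
      intro i _
      simp only [Pi.sub_apply, ne_eq, sub_eq_zero]
      exact not_congr eq_comm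
    rw [this]; exact h⟩
  loopless := ⟨by
    intro u h
    have : wt (u - u) = 0 := by simp [wt]
    omega⟩

/-- The connection set `S_V = {u ∈ V : 1 ≤ w(u) ≤ d - 1}` of `G[V]`, as a finite set. -/
noncomputable def conn (q n d : ℕ) [NeZero q] (V : Set (Vec q n)) : Finset (Vec q n) :=
  by classical exact univ.filter (fun u => u ∈ V ∧ 1 ≤ wt u ∧ wt u ≤ d - 1)

/-- The eigenvalue `λ_V(v) = ∑_{u ∈ S_V} z^{⟨u,v⟩}` with `z = e^{2πi/q}`. -/
noncomputable def lam (q n d : ℕ) [NeZero q] (V : Set (Vec q n)) (v : Vec q n) : ℂ :=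
  ∑ u ∈ conn q n d V, Complex.exp (2 * Real.pi * Complex.I / q) ^ (dot u v).val

/-- `v` gives the least eigenvalue of `G[V]`.  (The eigenvalues of `G[V]` are the real numbers
`λ_V(v)`, `v ∈ F_q^n`.) -/
def GivesLeast (q n d : ℕ) [NeZero q] (V : Set (Vec q n)) (v : Vec q n) : Prop :=
  ∀ w : Vec q n, (lam q n d V v).re ≤ (lam q n d V w).re

/-- The integer `∑ v_i q^{n-i}` by which vectors are ordered. -/
def code {q n : ℕ} (v : Vec q n) : ℕ := ∑ i : Fin n, (v i).val * q ^ (n - 1 - (i : ℕ))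

/-- `v` is the smallest vector giving the least eigenvalue of `G[V]`. -/
def IsChoice (q n d : ℕ) [NeZero q] (V : Set (Vec q n)) (v : Vec q n) : Prop :=
  GivesLeast q n d V v ∧ ∀ w, GivesLeast q n d V w → code v ≤ code w

open Classical in
/-- The smallest vector giving the least eigenvalue of `G[V]`. -/
noncomputable def choice (q n d : ℕ) [NeZero q] (V : Set (Vec q n)) : Vec q n :=
  if h : ∃ v, IsChoice q n d V v then h.choose else 0

/-- The subspaces `V_0 = F_q^n`, `V_{t+1} = {u ∈ V_t : ⟨u, v^{(t)}⟩ = 0}`. -/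
noncomputable def Vt (q n d : ℕ) [NeZero q] : ℕ → Set (Vec q n)
  | 0 => Set.univ
  | t + 1 => {u | u ∈ Vt q n d t ∧ dot u (choice q n d (Vt q n d t)) = 0}

/-- The hyperplane section `H_t(v) = {u ∈ V_t : ⟨u, v⟩ = 0}`. -/
def Ht (q n d : ℕ) [NeZero q] (t : ℕ) (v : Vec q n) : Set (Vec q n) :=
  {u | u ∈ Vt q n d t ∧ dot u v = 0}

/-- The statement of Q1: whenever `G_t = G[V_t]` has an edge, any two vectors giving the least
eigenvalue of `G_t` give isomorphic sections. -/
def SectionsIsomorphic : Prop :=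
  ∀ (q n d : ℕ) [NeZero q], q.Prime → 1 ≤ n → 2 ≤ d → ∀ t : ℕ,
    ((gilbert q n d).induce (Vt q n d t)) ≠ ⊥ →
    ∀ v v' : Vec q n, GivesLeast q n d (Vt q n d t) v → GivesLeast q n d (Vt q n d t) v' →
      Nonempty ((gilbert q n d).induce (Ht q n d t v) ≃g (gilbert q n d).induce (Ht q n d t v'))

/-! ### The smallest vector exists (so `choice` is what it should be) -/

theorem exists_isChoice (q n d : ℕ) [NeZero q] (V : Set (Vec q n)) :
    ∃ v, IsChoice q n d V v := by
  classical
  obtain ⟨v0, -, hv0⟩ := Finset.exists_min_image (univ : Finset (Vec q n))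
    (fun v => (lam q n d V v).re) ⟨0, mem_univ _⟩
  have h0 : v0 ∈ univ.filter (fun v => GivesLeast q n d V v) := by
    simp only [mem_filter, mem_univ, true_and]
    exact fun w => hv0 w (mem_univ _)
  obtain ⟨v, hv, hmin⟩ := Finset.exists_min_image
    (univ.filter (fun v => GivesLeast q n d V v)) code ⟨v0, h0⟩
  refine ⟨v, by simpa using hv, fun w hw => hmin w (by simpa using hw)⟩

/-! ### The example `q = 3`, `n = 5`, `d = 3` -/

theorem forall_vec {P : Vec 3 5 → Prop}
    (h : ∀ a b c d e : ZMod 3, P ![a, b, c, d, e]) : ∀ v, P v := by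
  intro v
  have := h (v 0) (v 1) (v 2) (v 3) (v 4)
  convert this
  ext i
  fin_cases i <;> rfl

/-- `(1,1,1,0,0)` -/
def v1 : Vec 3 5 := ![1, 1, 1, 0, 0]

/-- `(1,1,1,1,0)` -/
def v2 : Vec 3 5 := ![1, 1, 1, 1, 0]

/-- Twice the real part of `z^a`. -/
def c (a : ZMod 3) : ℤ := if a = 0 then 2 else -1

theorem re_pow (a : ZMod 3) :
    (Complex.exp (2 * Real.pi * Complex.I / (3 : ℕ)) ^ a.val).re = (c a : ℝ) / 2 := by
  have key : ∀ k : ℕ, (Complex.exp (2 * Real.pi * Complex.I / (3 : ℕ)) ^ k).re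
      = Real.cos (k * (2 * Real.pi / 3)) := by
    intro k
    rw [← Complex.exp_nat_mul]
    have : (k : ℂ) * (2 * Real.pi * Complex.I / (3 : ℕ))
        = ((k * (2 * Real.pi / 3) : ℝ) : ℂ) * Complex.I := by
      push_cast; ring
    rw [this, Complex.exp_ofReal_mul_I_re]
  rw [key]
  have hc1 : Real.cos (2 * Real.pi / 3) = -(1 / 2) := by
    have : 2 * Real.pi / 3 = Real.pi - Real.pi / 3 := by ring
    rw [this, Real.cos_pi_sub, Real.cos_pi_div_three]
  have hc2 : Real.cos (2 * (2 * Real.pi / 3)) = -(1 / 2) := by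
    rw [Real.cos_two_mul, hc1]; norm_num
  fin_cases a
  · change Real.cos (((0 : ZMod 3).val : ℝ) * _) = ((c 0 : ℤ) : ℝ) / 2
    have h2 : ((0 : ZMod 3)).val = 0 := rfl
    have : c 0 = 2 := by decide
    rw [h2, this]
    norm_num
  · have : ((1 : ZMod 3)).val = 1 := rfl
    simp only [Fin.mk_one, Fin.isValue] at *
    change Real.cos (((1 : ZMod 3).val : ℝ) * _) = _
    rw [this]
    simp only [Nat.cast_one, one_mul]
    rw [hc1]
    have : c 1 = -1 := by decide
    change _ = ((c 1 : ℤ) : ℝ) / 2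
    rw [this]; norm_num
  · change Real.cos (((2 : ZMod 3).val : ℝ) * _) = ((c 2 : ℤ) : ℝ) / 2
    have h2 : ((2 : ZMod 3)).val = 2 := rfl
    have : c 2 = -1 := by decide
    rw [h2, this]
    push_cast
    rw [hc2]; norm_num

/-- The integer `2 λ(v)`. -/
def lam2 (v : Vec 3 5) : ℤ := ∑ u ∈ univ.filter (fun u : Vec 3 5 => 1 ≤ wt u ∧ wt u ≤ 2), c (dot u v)

theorem lam_re (v : Vec 3 5) : (lam 3 5 3 Set.univ v).re = (lam2 v : ℝ) / 2 := by
  unfold lam lam2 conn
  rw [Complex.re_sum]
  push_cast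
  rw [Finset.sum_div]
  apply Finset.sum_congr
  · ext u
    simp
  · intro u _
    exact re_pow _

/-- The connection set of the full graph, listed. -/
def S50 : List (Vec 3 5) :=
  ((List.finRange 5).flatMap fun i => [Pi.single i 1, Pi.single i 2]) ++
  ((List.finRange 5).flatMap fun i => (List.finRange 5).flatMap fun j =>
    if i < j then [Pi.single i 1 + Pi.single j 1, Pi.single i 1 + Pi.single j 2,
      Pi.single i 2 + Pi.single j 1, Pi.single i 2 + Pi.single j 2] else [])

theorem mem_S50 : ∀ u : Vec 3 5, (1 ≤ wt u ∧ wt u ≤ 2) ↔ u ∈ S50 := by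
  apply forall_vec
  decide +kernel

theorem S50_nodup : S50.Nodup := by decide +kernel

theorem lam2_eq (v : Vec 3 5) : lam2 v = (S50.map fun u => c (dot u v)).sum := by
  unfold lam2
  have : univ.filter (fun u : Vec 3 5 => 1 ≤ wt u ∧ wt u ≤ 2) = S50.toFinset := by
    ext u
    simp [← mem_S50]
  rw [this, List.sum_toFinset _ S50_nodup]

theorem lam2_ge : ∀ v : Vec 3 5, -8 ≤ lam2 v := by
  intro v
  rw [lam2_eq]
  revert v
  apply forall_vec
  decide +kernel

theorem lam2_v1 : lam2 v1 = -8 := by rw [lam2_eq]; decide +kernel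

theorem lam2_v2 : lam2 v2 = -8 := by rw [lam2_eq]; decide +kernel

theorem least_v1 : GivesLeast 3 5 3 Set.univ v1 := by
  intro w
  rw [lam_re, lam_re, lam2_v1]
  have := lam2_ge w
  have h : ((-8 : ℤ) : ℝ) ≤ (lam2 w : ℝ) := by exact_mod_cast this
  push_cast at h ⊢
  linarith

theorem least_v2 : GivesLeast 3 5 3 Set.univ v2 := by
  intro w
  rw [lam_re, lam_re, lam2_v2]
  have := lam2_ge w
  have h : ((-8 : ℤ) : ℝ) ≤ (lam2 w : ℝ) := by exact_mod_cast this
  push_cast at h ⊢
  linarith

/-- The neighbours of both `0` and `r` in the section orthogonal to `v2`. -/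
def common (r : Vec 3 5) : List (Vec 3 5) :=
  S50.filter (fun s => decide (dot s v2 = 0 ∧ 1 ≤ wt (s - r) ∧ wt (s - r) ≤ 2))

theorem common_le : ∀ r ∈ S50, dot r v2 = 0 → (common r).length ≤ 5 := by
  decide +kernel

/-- The clique `(0,0,0,a,b)` in the section orthogonal to `v1`. -/
def pt (k : ZMod 3 × ZMod 3) : Vec 3 5 := ![0, 0, 0, k.1, k.2]

theorem pt_mem : ∀ k, dot (pt k) v1 = 0 := by decide +kernel

theorem pt_adj : ∀ k l, k ≠ l → 1 ≤ wt (pt k - pt l) ∧ wt (pt k - pt l) ≤ 2 := by
  decide +kernel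

theorem not_iso : ¬ Nonempty ((gilbert 3 5 3).induce (Ht 3 5 3 0 v1) ≃g
    (gilbert 3 5 3).induce (Ht 3 5 3 0 v2)) := by
  rintro ⟨φ⟩
  have hp : ∀ k, pt k ∈ Ht 3 5 3 0 v1 := fun k => ⟨trivial, pt_mem k⟩
  let P : ZMod 3 × ZMod 3 → Vec 3 5 := fun k => (φ ⟨pt k, hp k⟩ : Vec 3 5)
  have hP0 : ∀ k, dot (P k) v2 = 0 := fun k => (φ ⟨pt k, hp k⟩).2.2
  have hPadj : ∀ k l, k ≠ l → 1 ≤ wt (P k - P l) ∧ wt (P k - P l) ≤ 2 := by
    intro k l hkl
    have h1 : ((gilbert 3 5 3).induce (Ht 3 5 3 0 v1)).Adj ⟨pt k, hp k⟩ ⟨pt l, hp l⟩ := by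
      exact pt_adj k l hkl
    exact (φ.map_rel_iff (a := ⟨pt k, hp k⟩) (b := ⟨pt l, hp l⟩)).2 h1
  have hdot : ∀ a b : Vec 3 5, dot (a - b) v2 = dot a v2 - dot b v2 := by
    intro a b
    simp [dot, sub_mul, Finset.sum_sub_distrib]
  set x := P (0, 0) with hx
  set r := P (1, 0) - x with hr
  have hrS : r ∈ S50 := (mem_S50 r).1 (hPadj _ _ (by decide))
  have hr0 : dot r v2 = 0 := by rw [hr, hdot, hP0, hP0]; simp
  have hle := common_le r hrS hr0
  let K : Finset (ZMod 3 × ZMod 3) := univ.filter (fun k => k ≠ (0, 0) ∧ k ≠ (1, 0))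
  have hK : K.card = 7 := by decide
  have hsub : K.image (fun k => P k - x) ⊆ (common r).toFinset := by
    intro s hs
    rw [Finset.mem_image] at hs
    obtain ⟨k, hk, rfl⟩ := hs
    simp only [K, mem_filter, mem_univ, true_and] at hk
    rw [List.mem_toFinset, common, List.mem_filter]
    refine ⟨(mem_S50 _).1 (hPadj _ _ hk.1), ?_⟩
    rw [decide_eq_true_iff]
    refine ⟨by rw [hdot, hP0, hP0]; simp, ?_⟩
    have : P k - x - r = P k - P (1, 0) := by rw [hr]; abel
    rw [this]
    exact hPadj _ _ hk.2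
  have hinj : Function.Injective (fun k => P k - x) := by
    intro k l hkl
    by_contra hne
    have h1 := (hPadj k l hne).1
    have h2 : P k - P l = 0 := by
      have : P k = P l := by simpa using hkl
      rw [this]; simp
    rw [h2] at h1
    have : wt (0 : Vec 3 5) = 0 := by simp [wt]
    omega
  have hcard : (K.image (fun k => P k - x)).card = 7 := by
    rw [Finset.card_image_of_injective _ hinj, hK]
  have := Finset.card_le_card hsub
  have h3 := List.toFinset_card_le (common r)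
  omega

theorem result : ¬ SectionsIsomorphic := by
  intro h
  apply not_iso
  apply h 3 5 3 (by norm_num) (by norm_num) (by norm_num) 0 _ v1 v2 least_v1 least_v2
  intro hbot
  have hadj : ((gilbert 3 5 3).induce (Vt 3 5 3 0)).Adj ⟨pt (0, 0), trivial⟩ ⟨pt (1, 0), trivial⟩ := by
    exact pt_adj _ _ (by decide)
  rw [hbot] at hadj
  exact hadj

end Pool.Agent.Results.MP_be01c1_co.SectionsNotIsomorphic
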